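import Pool.Agent.helper78.HR.Defs

/-!
HR project, row CO: two intersecting boxes which do not cross: one contains a corner of the other.
-/

set_option autoImplicit false

namespace Pool.Agent.helper78.HR

open Finset

theorem hrCO_aux {ι : Type*} (x y : ι → ℤ) (f g : Fm ι)
    (hne : f ≠ g) (h2 : ¬ Cr x y g f) (z : ℤ × ℤ) (hz1 : In x y f z) (hz2 : In x y g z)
    (hx1 : x f.1 < x g.1) (hx2 : x g.2.1 < x f.2.1) :
    ∃ c ∈ corn x y g, In x y f c := by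
  obtain ⟨a1, a2, a3, a4⟩ := hz1
  obtain ⟨b1, b2, b3, b4⟩ := hz2
  have hl : x g.1 ≤ x f.2.1 := le_trans b1 a2
  by_cases c1 : y f.2.2.1 ≤ y g.2.2.1
  · refine ⟨(x g.1, y g.2.2.1), by simp [corn], ?_⟩
    exact ⟨hx1.le, hl, c1, le_trans b3 a4⟩
  · by_cases c2 : y g.2.2.2 ≤ y f.2.2.2
    · refine ⟨(x g.1, y g.2.2.2), by simp [corn], ?_⟩
      exact ⟨hx1.le, hl, le_trans a3 b4, c2⟩
    · exfalso
      apply h2
      exact ⟨fun h => hne h.symm, hx1.le, hx2.le, by omega, by omega⟩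

theorem hrCO_auy {ι : Type*} (x y : ι → ℤ) (f g : Fm ι)
    (hne : f ≠ g) (h1 : ¬ Cr x y f g) (z : ℤ × ℤ) (hz1 : In x y f z) (hz2 : In x y g z)
    (hy1 : y f.2.2.1 < y g.2.2.1) (hy2 : y g.2.2.2 < y f.2.2.2) :
    ∃ c ∈ corn x y g, In x y f c := by
  obtain ⟨a1, a2, a3, a4⟩ := hz1
  obtain ⟨b1, b2, b3, b4⟩ := hz2
  have hl : y g.2.2.1 ≤ y f.2.2.2 := le_trans b3 a4
  by_cases c1 : x f.1 ≤ x g.1
  · refine ⟨(x g.1, y g.2.2.1), by simp [corn], ?_⟩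
    exact ⟨c1, le_trans b1 a2, hy1.le, hl⟩
  · by_cases c2 : x g.2.1 ≤ x f.2.1
    · refine ⟨(x g.2.1, y g.2.2.1), by simp [corn], ?_⟩
      exact ⟨le_trans a1 b2, c2, hy1.le, hl⟩
    · exfalso
      apply h1
      exact ⟨hne, by omega, by omega, hy1.le, hy2.le⟩

/-- row CO (step 1d). Two different intersecting members of `Fam` which do not cross: one contains a
corner of the other. -/
theorem corner {ι : Type*} [Fintype ι] (x y : ι → ℤ) (hx : Function.Injective x)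
    (hy : Function.Injective y) (K : ℕ) (V : Finset (ℤ × ℤ)) (f g : Fm ι)
    (hf : f ∈ Fam x y K V) (hg : g ∈ Fam x y K V) (hne : f ≠ g)
    (h1 : ¬ Cr x y f g) (h2 : ¬ Cr x y g f) (z : ℤ × ℤ) (hz1 : In x y f z) (hz2 : In x y g z) :
    (∃ c ∈ corn x y f, In x y g c) ∨ (∃ c ∈ corn x y g, In x y f c) := by
  by_cases p1 : x f.1 < x g.1 ∧ x g.2.1 < x f.2.1
  · exact Or.inr (hrCO_aux x y f g hne h2 z hz1 hz2 p1.1 p1.2)
  by_cases p2 : y f.2.2.1 < y g.2.2.1 ∧ y g.2.2.2 < y f.2.2.2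
  · exact Or.inr (hrCO_auy x y f g hne h1 z hz1 hz2 p2.1 p2.2)
  left
  obtain ⟨a1, a2, a3, a4⟩ := hz1
  obtain ⟨b1, b2, b3, b4⟩ := hz2
  obtain ⟨u, hu, u1, u2⟩ : ∃ u, (u = x f.1 ∨ u = x f.2.1) ∧ x g.1 ≤ u ∧ u ≤ x g.2.1 := by
    by_cases c : x g.1 ≤ x f.1
    · exact ⟨x f.1, Or.inl rfl, c, le_trans a1 b2⟩
    · refine ⟨x f.2.1, Or.inr rfl, le_trans b1 a2, ?_⟩
      by_contra h
      exact p1 ⟨by omega, by omega⟩
  obtain ⟨v, hv, v1, v2⟩ : ∃ v, (v = y f.2.2.1 ∨ v = y f.2.2.2) ∧ y g.2.2.1 ≤ v ∧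
      v ≤ y g.2.2.2 := by
    by_cases c : y g.2.2.1 ≤ y f.2.2.1
    · exact ⟨y f.2.2.1, Or.inl rfl, c, le_trans a3 b4⟩
    · refine ⟨y f.2.2.2, Or.inr rfl, le_trans b3 a4, ?_⟩
      by_contra h
      exact p2 ⟨by omega, by omega⟩
  refine ⟨(u, v), ?_, u1, u2, v1, v2⟩
  rcases hu with rfl | rfl <;> rcases hv with rfl | rfl <;> simp [corn]

end Pool.Agent.helper78.HR
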